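import Pool.Agent.Helper81.XP.StB

namespace Pool.Agent.Helper18.XP

open Finset Pool.Agent.Helper81.XP Polynomial

/-- the substitution `t ↦ t + c s` on a power of `t` -/
lemma SH2_pow {k : Type} [Field k] (c : k) (j : ℕ) :
    (∀ n l, n + l ≠ j → ((((C X + C (C c) * X : T2 k)) ^ j).coeff n).coeff l = 0) ∧
      ((((C X + C (C c) * X : T2 k)) ^ j).coeff j).coeff 0 = c ^ j := by
  induction j with
  | zero =>
    constructor
    · intro n l h
      rw [pow_zero, Polynomial.coeff_one]
      split_ifs with hn
      · rw [Polynomial.coeff_one, if_neg]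
        omega
      · simp
    · simp
  | succ j ih =>
    obtain ⟨ih1, ih2⟩ := ih
    have e : ((C X + C (C c) * X : T2 k)) ^ (j + 1) =
        ((C X + C (C c) * X : T2 k)) ^ j * C X +
          ((C X + C (C c) * X : T2 k)) ^ j * C (C c) * X := by
      ring
    constructor
    · intro n l h
      rw [e, Polynomial.coeff_add, Polynomial.coeff_add, Polynomial.coeff_mul_C]
      have h1 : ((((C X + C (C c) * X : T2 k)) ^ j).coeff n * X).coeff l = 0 := by
        rcases l with _ | l
        · simp
        · rw [Polynomial.coeff_mul_X]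
          exact ih1 n l (by omega)
      have h2 : ((((C X + C (C c) * X : T2 k)) ^ j * C (C c) * X).coeff n).coeff l = 0 := by
        rcases n with _ | n
        · simp
        · rw [Polynomial.coeff_mul_X, Polynomial.coeff_mul_C, Polynomial.coeff_mul_C,
            ih1 n l (by omega), zero_mul]
      rw [h1, h2, add_zero]
    · rw [e, Polynomial.coeff_add, Polynomial.coeff_add, Polynomial.coeff_mul_C,
        Polynomial.coeff_mul_X, Polynomial.coeff_mul_C, Polynomial.coeff_mul_C, ih2]
      have h1 : ((((C X + C (C c) * X : T2 k)) ^ j).coeff (j + 1) * X).coeff 0 = 0 := by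
        simp
      rw [h1, zero_add, pow_succ]

lemma SH2_mon {k : Type} [Field k] (c r : k) (i j n l : ℕ) :
    (n + l ≠ i + j →
      ((C (C r) * (C X + C (C c) * X : T2 k) ^ j * X ^ i).coeff n).coeff l = 0) ∧
    ((C (C r) * (C X + C (C c) * X : T2 k) ^ j * X ^ i).coeff (i + j)).coeff 0 = r * c ^ j := by
  constructor
  · intro h
    rw [Polynomial.coeff_mul_X_pow']
    split_ifs with hi
    · rw [Polynomial.coeff_C_mul, Polynomial.coeff_C_mul, (SH2_pow c j).1 _ _ (by omega),
        mul_zero]
    · simp
  · rw [add_comm i j, Polynomial.coeff_mul_X_pow, Polynomial.coeff_C_mul,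
      Polynomial.coeff_C_mul, (SH2_pow c j).2]

lemma SH2_min {k : Type} [Field k] (R : T2 k) (N : ℕ) (hR : R ≠ 0) (hN : TD2 N R) :
    ∃ N' ≤ N, TD2 N' R ∧ ∃ i j, i + j = N' ∧ (R.coeff i).coeff j ≠ 0 := by
  classical
  have hex : ∃ M, TD2 M R := ⟨N, hN⟩
  refine ⟨Nat.find hex, Nat.find_min' hex hN, Nat.find_spec hex, ?_⟩
  by_contra hcon
  push Not at hcon
  rcases Nat.eq_zero_or_pos (Nat.find hex) with h0 | h0
  · obtain ⟨i, hi⟩ : ∃ i, R.coeff i ≠ 0 := by
      by_contra hh
      push Not at hh
      exact hR (Polynomial.ext fun i => by rw [hh i, Polynomial.coeff_zero])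
    obtain ⟨j, hj⟩ : ∃ j, (R.coeff i).coeff j ≠ 0 := by
      by_contra hh
      push Not at hh
      exact hi (Polynomial.ext fun i => by rw [hh i, Polynomial.coeff_zero])
    have := Nat.find_spec hex i j hj
    exact hj (hcon i j (by omega))
  · refine Nat.find_min hex (Nat.sub_lt h0 one_pos) ?_
    intro i j hij
    have h1 := Nat.find_spec hex i j hij
    have h2 : i + j ≠ Nat.find hex := fun h => hij (hcon i j h)
    omega

lemma SH2_nat {k : Type} [Field k] (R : T2 k) (N : ℕ) (hN : TD2 N R) :
    R.natDegree < N + 1 ∧ ∀ i, (R.coeff i).natDegree < N + 1 := by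
  constructor
  · rw [Nat.lt_succ_iff]
    refine Polynomial.natDegree_le_iff_coeff_eq_zero.mpr fun i hi => ?_
    refine Polynomial.ext fun j => ?_
    rw [Polynomial.coeff_zero]
    by_contra h
    have := hN i j h
    omega
  · intro i
    rw [Nat.lt_succ_iff]
    refine Polynomial.natDegree_le_iff_coeff_eq_zero.mpr fun j hj => ?_
    by_contra h
    have := hN i j h
    omega

lemma SH2_sum {k : Type} [Field k] (c : k) (R : T2 k) (N : ℕ) (hN : TD2 N R) :
    ev2 (C X + C (C c) * X : T2 k) X R = ∑ i ∈ range (N + 1), ∑ j ∈ range (N + 1),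
      C (C ((R.coeff i).coeff j)) * (C X + C (C c) * X : T2 k) ^ j * X ^ i := by
  obtain ⟨h1, h2⟩ := SH2_nat R N hN
  show Polynomial.eval₂ _ _ R = _
  rw [Polynomial.eval₂_eq_sum_range' _ h1]
  refine Finset.sum_congr rfl fun i _ => ?_
  rw [← Finset.sum_mul]
  congr 1
  show Polynomial.eval₂ _ _ (R.coeff i) = _
  rw [Polynomial.eval₂_eq_sum_range' _ (h2 i)]
  rfl

theorem st_SH2 : ST_SH2 := by
  intro k _ _ R N hR hN
  obtain ⟨N', hN', hT, i0, j0, hij, hr⟩ := SH2_min R N hR hN
  set P : Polynomial k := ∑ j ∈ range (N' + 1), C ((R.coeff (N' - j)).coeff j) * X ^ j with hP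
  have hPc : P.coeff j0 ≠ 0 := by
    rw [hP, Polynomial.finsetSum_coeff]
    rw [Finset.sum_eq_single j0]
    · rw [Polynomial.coeff_C_mul_X_pow, if_pos rfl]
      have : N' - j0 = i0 := by omega
      rw [this]
      exact hr
    · intro j _ hj
      rw [Polynomial.coeff_C_mul_X_pow, if_neg (Ne.symm hj)]
    · intro h
      exact absurd (Finset.mem_range.mpr (by omega)) h
  have hP0 : P ≠ 0 := by
    rintro h
    rw [h] at hPc
    exact hPc (Polynomial.coeff_zero _)
  obtain ⟨c, hc⟩ : ∃ c, P.eval c ≠ 0 := by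
    by_contra hh
    push Not at hh
    exact hP0 (Polynomial.funext fun c => by rw [hh c, Polynomial.eval_zero])
  have hPe : P.eval c = ∑ j ∈ range (N' + 1), (R.coeff (N' - j)).coeff j * c ^ j := by
    rw [hP, Polynomial.eval_finsetSum]
    refine Finset.sum_congr rfl fun j _ => ?_
    rw [Polynomial.eval_mul, Polynomial.eval_C, Polynomial.eval_pow, Polynomial.eval_X]
  refine ⟨c, N', ev2 (C X + C (C c) * X : T2 k) X R, hN', ⟨?_, P.eval c, hc, ?_⟩, ?_⟩
  · intro n l hnl
    by_contra hcon
    apply hnl
    rw [SH2_sum c R N' hT, Polynomial.finsetSum_coeff, Polynomial.finsetSum_coeff]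
    refine Finset.sum_eq_zero fun i _ => ?_
    rw [Polynomial.finsetSum_coeff, Polynomial.finsetSum_coeff]
    refine Finset.sum_eq_zero fun j _ => ?_
    by_cases h0 : (R.coeff i).coeff j = 0
    · rw [h0]
      simp
    · have := hT i j h0
      exact (SH2_mon c _ i j n l).1 (by omega)
  · refine Polynomial.ext fun l => ?_
    rw [SH2_sum c R N' hT, Polynomial.finsetSum_coeff, Polynomial.finsetSum_coeff,
      Polynomial.coeff_C]
    have hs : ∀ i ∈ range (N' + 1),
        ((∑ j ∈ range (N' + 1), C (C ((R.coeff i).coeff j)) *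
          (C X + C (C c) * X : T2 k) ^ j * X ^ i).coeff N').coeff l =
        ∑ j ∈ range (N' + 1), if l = 0 ∧ i + j = N' then (R.coeff i).coeff j * c ^ j else 0 := by
      intro i _
      rw [Polynomial.finsetSum_coeff, Polynomial.finsetSum_coeff]
      refine Finset.sum_congr rfl fun j _ => ?_
      split_ifs with h
      · obtain ⟨rfl, h⟩ := h
        rw [← h]
        exact (SH2_mon c _ i j 0 0).2
      · by_cases h0 : (R.coeff i).coeff j = 0
        · rw [h0]
          simp
        · have h1 := hT i j h0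
          refine (SH2_mon c _ i j N' l).1 fun h2 => h ?_
          omega
    rw [Finset.sum_congr rfl hs, Finset.sum_comm]
    split_ifs with hl
    · rw [hPe]
      refine Finset.sum_congr rfl fun j hj => ?_
      rw [Finset.mem_range] at hj
      rw [Finset.sum_eq_single (N' - j)]
      · rw [if_pos ⟨hl, by omega⟩]
      · intro i _ hi
        rw [if_neg]
        rintro ⟨-, h⟩
        exact hi (by omega)
      · intro h
        exact absurd (Finset.mem_range.mpr (by omega)) h
    · refine Finset.sum_eq_zero fun j _ => Finset.sum_eq_zero fun i _ => ?_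
      rw [if_neg]
      rintro ⟨h, -⟩
      exact hl h
  · intro K _ _ a b
    have h : (ev2 (k := k) a b).comp (ev2 (k := k) (C X + C (C c) * X : T2 k) X) =
        ev2 (k := k) (a + algebraMap k K c * b) b := by
      refine Polynomial.ringHom_ext' (Polynomial.ringHom_ext' (RingHom.ext fun r => ?_) ?_) ?_
      · simp [ev2, Polynomial.algebraMap_apply]
      · simp [ev2]
      · simp [ev2]
    exact RingHom.congr_fun h R

end Pool.Agent.Helper18.XP
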