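import Pool.Agent.Helper81.XP.StB

namespace Pool.Agent.Helper18.XP

open Finset Pool.Agent.Helper81.XP

open Classical in
lemma TRP_split {U : Type} [Fintype U] (f : U → ℝ) (B : Finset U) (ε C D : ℝ)
    (hC : 0 ≤ C) (hB : (B.card : ℝ) ≤ ε * Fintype.card U)
    (h0 : 0 ≤ D) (h1 : ∀ u, f u ≤ C) (h2 : ∀ u, u ∉ B → f u ≤ D) :
    ∑ u, f u ≤ Fintype.card U * (ε * C + D) := by
  have h3 : ∀ u, f u ≤ (if u ∈ B then C else 0) + D := by
    intro u
    split_ifs with hu
    · linarith [h1 u]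
    · linarith [h2 u hu]
  have h4 : ∑ u : U, ((if u ∈ B then C else 0) + D) = B.card * C + Fintype.card U * D := by
    rw [Finset.sum_add_distrib]
    simp
  have h5 : ∑ u, f u ≤ ∑ u : U, ((if u ∈ B then C else 0) + D) :=
    Finset.sum_le_sum fun u _ => h3 u
  have h6 : (B.card : ℝ) * C ≤ ε * Fintype.card U * C := mul_le_mul_of_nonneg_right hB hC
  rw [h4] at h5
  linarith

open Classical in
lemma TRP_cube {U V : Type} [Fintype U] (E : Finset V) (z : U → V → ℝ) :
    ∑ u1 : U, ∑ u2 : U, ∑ u3 : U, ∑ e ∈ E, z u1 e * (z u2 e * z u3 e) =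
      ∑ e ∈ E, (∑ u, z u e) ^ 3 := by
  have h : ∀ e, (∑ u, z u e) ^ 3 = ∑ u1 : U, ∑ u2 : U, ∑ u3 : U, z u1 e * (z u2 e * z u3 e) := by
    intro e
    rw [pow_succ', pow_two, Finset.sum_mul]
    refine Finset.sum_congr rfl fun u1 _ => ?_
    rw [Finset.sum_mul_sum, Finset.mul_sum]
    refine Finset.sum_congr rfl fun u2 _ => ?_
    rw [Finset.mul_sum]
  simp_rw [h]
  rw [Finset.sum_comm' (s := E) (t := fun _ => univ) (t' := univ) (s' := fun _ => E) (by simp)]
  refine Finset.sum_congr rfl fun u1 _ => ?_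
  rw [Finset.sum_comm' (s := E) (t := fun _ => univ) (t' := univ) (s' := fun _ => E) (by simp)]
  refine Finset.sum_congr rfl fun u2 _ => ?_
  rw [Finset.sum_comm' (s := E) (t := fun _ => univ) (t' := univ) (s' := fun _ => E) (by simp)]

open Classical in
theorem st_TRP : ST_TRP := by
  intro U V _ E Z β ε B hβ hε hB hE hB1 hn
  have hn' : (0 : ℝ) < Fintype.card U := by exact_mod_cast hn
  obtain ⟨B1, hB1c, hB1⟩ := hB1
  set z : U → V → ℝ := fun u e => if Z u e then 1 else 0 with hz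
  have hc : ∀ u1 u2 u3 : U, ∑ e ∈ E, z u1 e * (z u2 e * z u3 e) =
      ((E.filter (fun e => Z u1 e ∧ Z u2 e ∧ Z u3 e)).card : ℝ) := by
    intro u1 u2 u3
    rw [Finset.card_filter]
    push_cast
    refine Finset.sum_congr rfl fun e _ => ?_
    simp only [hz]
    by_cases h1 : Z u1 e <;> by_cases h2 : Z u2 e <;> by_cases h3 : Z u3 e <;> simp [h1, h2, h3]
  have hcE : ∀ u1 u2 u3 : U, ∑ e ∈ E, z u1 e * (z u2 e * z u3 e) ≤ E.card := by
    intro u1 u2 u3
    rw [hc]
    exact_mod_cast Finset.card_filter_le _ _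
  have hE0 : (0 : ℝ) ≤ E.card := Nat.cast_nonneg _
  have hall : ∀ u1 u2 : U, ∑ u3 : U, ∑ e ∈ E, z u1 e * (z u2 e * z u3 e) ≤
      Fintype.card U * E.card := by
    intro u1 u2
    calc ∑ u3 : U, ∑ e ∈ E, z u1 e * (z u2 e * z u3 e) ≤ ∑ _u3 : U, (E.card : ℝ) :=
          Finset.sum_le_sum fun u3 _ => hcE u1 u2 u3
      _ = Fintype.card U * E.card := by simp
  have hall2 : ∀ u1 : U, ∑ u2 : U, ∑ u3 : U, ∑ e ∈ E, z u1 e * (z u2 e * z u3 e) ≤
      Fintype.card U * (Fintype.card U * E.card) := by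
    intro u1
    calc ∑ u2 : U, ∑ u3 : U, ∑ e ∈ E, z u1 e * (z u2 e * z u3 e) ≤
          ∑ _u2 : U, ((Fintype.card U : ℝ) * E.card) := Finset.sum_le_sum fun u2 _ => hall u1 u2
      _ = Fintype.card U * (Fintype.card U * E.card) := by simp
  have hup : ∑ u1 : U, ∑ u2 : U, ∑ u3 : U, ∑ e ∈ E, z u1 e * (z u2 e * z u3 e) ≤
      Fintype.card U * (ε * (Fintype.card U * (Fintype.card U * E.card)) +
        Fintype.card U * (ε * (Fintype.card U * E.card) +
          Fintype.card U * (ε * E.card + B))) := by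
    refine TRP_split _ B1 ε _ _ (by positivity) hB1c (by positivity) hall2 fun u1 hu1 => ?_
    obtain ⟨B2, hB2c, hB2⟩ := hB1 u1 hu1
    refine TRP_split _ B2 ε _ _ (by positivity) hB2c (by positivity) (hall u1) fun u2 hu2 => ?_
    obtain ⟨B3, hB3c, hB3⟩ := hB2 u2 hu2
    refine TRP_split _ B3 ε _ _ (by positivity) hB3c hB (hcE u1 u2) fun u3 hu3 => ?_
    rw [hc]
    exact hB3 u3 hu3
  have hlow : (E.card : ℝ) * (β * Fintype.card U) ^ 3 ≤
      ∑ u1 : U, ∑ u2 : U, ∑ u3 : U, ∑ e ∈ E, z u1 e * (z u2 e * z u3 e) := by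
    rw [TRP_cube]
    calc (E.card : ℝ) * (β * Fintype.card U) ^ 3 = ∑ _e ∈ E, (β * Fintype.card U : ℝ) ^ 3 := by
          simp
      _ ≤ ∑ e ∈ E, (∑ u, z u e) ^ 3 := by
          refine Finset.sum_le_sum fun e he => ?_
          have h1 := hE e he
          have h2 : ∑ u, z u e = ((univ.filter (fun u => Z u e)).card : ℝ) := by
            rw [Finset.card_filter]
            push_cast
            rfl
          rw [h2]
          exact pow_le_pow_left₀ (by positivity) h1 3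
  have h := hlow.trans hup
  set n : ℝ := (Fintype.card U : ℝ) with hnn
  have h3 : (0 : ℝ) < n ^ 3 := by positivity
  have h4 : n ^ 3 * ((E.card : ℝ) * β ^ 3) ≤ n ^ 3 * (B + 3 * ε * E.card) := by
    nlinarith [h]
  exact le_of_mul_le_mul_left h4 h3

end Pool.Agent.Helper18.XP
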